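import Pool.Agent.R302.SA.M3

set_option autoImplicit false

/-!
# MP_f801da_an: the sharp bound of the mean of `|f'|^(-2)` from mean squares over the scales

Let `f` be holomorphic in the unit disc, `h = log f'`, and let `σ` be continuous and bounded by `M` on
`(1, ∞)` with `|(1 - |z|²) z h'(z) - c |z|²| ≤ σ(1 / |z|) |z|` for `0 < |z| < 1` (`z h' = z f'' / f'`;
for `c = 0` this bounds the Bloch quantity). If the mean square of `σ` over the scales is at most `1`,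

  `∫_(1/r)^2 σ(t)² dt / (t - 1) ≤ log (r / (1 - r)) + K` for `1/2 < r < 1`,

then `I_{-2}(r, f') ≤ C (1 - r)^(-1/2)`, the bound of the question.
-/

namespace Pool.Agent.Results.MP_f801da_an.ScaleAverages

open Complex Metric Set Filter Topology MeasureTheory
open Pool.Agent.R302.SA Pool.Agent.W677.Mar

/-- The point `r e^{iθ}`. -/
noncomputable def circ (r θ : ℝ) : ℂ := (r : ℂ) * Complex.exp ((θ : ℂ) * Complex.I)

/-- `I_{-2}(r, f')` -/
noncomputable def negMean (r : ℝ) (f : ℂ → ℂ) : ℝ :=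
  Real.sqrt ((1 / (2 * Real.pi)) * ∫ θ in (0:ℝ)..(2 * Real.pi), 1 / ‖deriv f (circ r θ)‖ ^ 2)

/-- **Result.** -/
theorem result (f h : ℂ → ℂ) (c : ℂ) (σ : ℝ → ℝ) (M K : ℝ)
    (hh : DifferentiableOn ℂ h (Metric.ball 0 1))
    (hf : ∀ z ∈ Metric.ball (0 : ℂ) 1, deriv f z = Complex.exp (h z))
    (hσ : ContinuousOn σ (Set.Ioi 1)) (hM : ∀ t, 1 < t → 0 ≤ σ t ∧ σ t ≤ M)
    (hD : ∀ z ∈ Metric.ball (0 : ℂ) 1, z ≠ 0 →
      ‖((1 - ‖z‖ ^ 2 : ℝ) : ℂ) * (z * deriv h z) - c * ((‖z‖ ^ 2 : ℝ) : ℂ)‖ ≤ σ ‖z‖⁻¹ * ‖z‖)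
    (hint : ∀ r : ℝ, 1 / 2 < r → r < 1 →
      ∫ t in (1 / r)..2, σ t ^ 2 / (t - 1) ≤ Real.log (r / (1 - r)) + K) :
    ∃ C : ℝ, ∀ r : ℝ, 1 / 2 < r → r < 1 → negMean r f ≤ C * (1 - r) ^ (-(1 / 2 : ℝ)) := by
  have hpi := Real.pi_pos
  obtain ⟨E, hE⟩ : ∃ E, E = Real.exp (-2 * (h 0).re) * Real.exp (4 * M ^ 2 / 3 + K) := ⟨_, rfl⟩
  have hE0 : 0 < E := by rw [hE]; positivity
  refine ⟨Real.sqrt E, fun r hr hr1 => ?_⟩
  have hr0 : 0 < r := by linarith
  have h1r : 0 < 1 - r := by linarith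
  set H : ℂ → ℂ := fun v => h v - h 0 with hH
  have hHd : DifferentiableOn ℂ H (ball 0 1) := hh.sub_const _
  have hder : ∀ v ∈ ball (0 : ℂ) 1, deriv H v = deriv h v := by
    intro v _
    simp only [hH]
    exact deriv_sub_const _
  have hdr : DriftG (c / 2) (P2 σ) H := by
    intro v hv hv0 P hP
    have hvn : 0 < ‖v‖ := norm_pos_iff.2 hv0
    have hn : ‖v‖ < 1 := mem_ball_zero_iff.1 hv
    have b3 := hD v hv hv0
    rw [← hder v hv, ← hP] at b3
    have e0 : P - 2 * (c / 2) * ((‖v‖ ^ 2 : ℝ) : ℂ) = P - c * ((‖v‖ ^ 2 : ℝ) : ℂ) := by ring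
    rw [e0]
    have b4 := pow_le_pow_left₀ (norm_nonneg _) b3 2
    refine b4.trans (le_of_eq ?_)
    unfold P2 gk
    rw [Real.exp_log hvn]
    have h7 : 1 - ‖v‖ ^ 2 ≠ 0 := by nlinarith
    simp only [id]
    field_simp
  have hR : 1 < r⁻¹ := (one_lt_inv₀ hr0).2 hr1
  have hR2 : r⁻¹ ≤ 2 := by
    rw [inv_le_comm₀ hr0 (by norm_num)]
    linarith
  have hP0 := P0_le hσ hM hR hR2
  rw [inv_inv] at hP0
  have hi := hint r hr hr1
  rw [one_div] at hi
  have hmom := moments hHd (by simp [hH]) (fun s hs => P0_d hσ hM hs) (fun s hs => P1_d hσ hM hs)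
    (fun s hs => P0_nonneg hσ hM hs) (fun s _ => F1_nonneg (Real.exp_pos s).le) hdr (-2) hr0 hr1
  have hval : ∀ θ : ℝ, 1 / ‖deriv f (circ r θ)‖ ^ 2 =
      Real.exp (-2 * (h 0).re) * Real.exp ((starRingEnd ℂ) (-2) * H (pt r θ)).re := by
    intro θ
    have e1 : circ r θ = pt r θ := by
      simp only [circ, pt, circleMap, zero_add]
    have e2 : pt r θ ∈ ball (0 : ℂ) 1 := by
      rw [mem_ball_zero_iff, norm_pt r θ hr0.le]; exact hr1
    have e3 : (starRingEnd ℂ) (-2 : ℂ) = -2 := by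
      apply Complex.ext <;> simp
    rw [e1, hf _ e2, Complex.norm_exp, ← Real.exp_nat_mul, one_div, ← Real.exp_neg, ← Real.exp_add,
      e3]
    congr 1
    simp only [hH, mul_re, sub_re, sub_im, neg_re, neg_im, re_ofNat, im_ofNat]
    push_cast
    ring
  have hsum : (1 / (2 * Real.pi)) * ∫ θ in (0:ℝ)..(2 * Real.pi), 1 / ‖deriv f (circ r θ)‖ ^ 2 ≤
      E * (1 - r)⁻¹ := by
    simp only [hval]
    rw [intervalIntegral.integral_const_mul]
    have e4 : ‖(-2 : ℂ)‖ ^ 2 = 4 := by simp; norm_num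
    rw [e4] at hmom
    have e5 : Real.exp (4 * P0 σ (Real.log r)) ≤ Real.exp (4 * M ^ 2 / 3 + K) * (1 - r)⁻¹ := by
      have e6 : 4 * P0 σ (Real.log r) ≤ (4 * M ^ 2 / 3 + K) + Real.log (r / (1 - r)) := by linarith
      have e7 := Real.exp_le_exp.2 e6
      rw [Real.exp_add, Real.exp_log (by positivity)] at e7
      refine e7.trans ?_
      apply mul_le_mul_of_nonneg_left _ (Real.exp_pos _).le
      rw [div_eq_mul_inv]
      exact mul_le_of_le_one_left (by positivity) hr1.le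
    have e8 := hmom.trans (mul_le_mul_of_nonneg_left e5 (by positivity : 0 ≤ 2 * Real.pi))
    calc (1 / (2 * Real.pi)) * (Real.exp (-2 * (h 0).re) *
          ∫ θ in (0:ℝ)..(2 * Real.pi), Real.exp ((starRingEnd ℂ) (-2) * H (pt r θ)).re)
        ≤ (1 / (2 * Real.pi)) * (Real.exp (-2 * (h 0).re) *
          (2 * Real.pi * (Real.exp (4 * M ^ 2 / 3 + K) * (1 - r)⁻¹))) := by
          apply mul_le_mul_of_nonneg_left _ (by positivity)
          exact mul_le_mul_of_nonneg_left e8 (Real.exp_pos _).le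
      _ = E * (1 - r)⁻¹ := by
          rw [hE]
          field_simp
  unfold negMean
  refine (Real.sqrt_le_sqrt hsum).trans (le_of_eq ?_)
  rw [Real.sqrt_mul hE0.le, Real.rpow_neg h1r.le, ← Real.sqrt_eq_rpow, Real.sqrt_inv]

end Pool.Agent.Results.MP_f801da_an.ScaleAverages
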